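import Mathlib

namespace Pool.Agent.H.MP_96aaf1_al

universe u w

open FreeMonoid in
/-- The defining relations `R_v` and `R_e` of the graph product. -/
inductive Rel {V : Type u} (Γ : SimpleGraph V) (M : V → Type w) [∀ v, Monoid (M v)] :
    FreeMonoid (Σ v, M v) → FreeMonoid (Σ v, M v) → Prop
  | mul (v : V) (a b : M v) : Rel Γ M (of ⟨v, a⟩ * of ⟨v, b⟩) (of ⟨v, a * b⟩)
  | one (v : V) : Rel Γ M (of ⟨v, 1⟩) 1
  | comm (u v : V) (h : Γ.Adj u v) (a : M u) (b : M v) :
      Rel Γ M (of ⟨u, a⟩ * of ⟨v, b⟩) (of ⟨v, b⟩ * of ⟨u, a⟩)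

/-- The graph product of the monoids `M v` over the graph `Γ`. -/
abbrev GP {V : Type u} (Γ : SimpleGraph V) (M : V → Type w) [∀ v, Monoid (M v)] :=
  (conGen (Rel Γ M)).Quotient

/-- The relation `R~`: same idempotent left identities. -/
def Rt {A : Type*} [Monoid A] (a b : A) : Prop :=
  ∀ e : A, e * e = e → (e * a = a ↔ e * b = b)

variable {V : Type u} (Γ : SimpleGraph V) {M : V → Type w} [∀ v, Monoid (M v)]

open Classical in
noncomputable def hd (v : V) : List (Σ v, M v) → M v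
  | [] => 1
  | x :: w => if h : x.1 = v then h ▸ x.2 else if Γ.Adj x.1 v then hd v w else 1

open Classical in
noncomputable def tl (v : V) : List (Σ v, M v) → List (Σ v, M v)
  | [] => []
  | x :: w => if x.1 = v then w else if Γ.Adj x.1 v then x :: tl v w else x :: w

def Red : List (Σ v, M v) → Prop
  | [] => True
  | x :: w => x.2 ≠ 1 ∧ hd Γ x.1 w = 1 ∧ Red w

open Classical in
noncomputable def cs (v : V) (m : M v) (w : List (Σ v, M v)) : List (Σ v, M v) :=
  if m = 1 then w else ⟨v, m⟩ :: w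

noncomputable def act (x : Σ v, M v) (w : List (Σ v, M v)) : List (Σ v, M v) :=
  cs x.1 (x.2 * hd Γ x.1 w) (tl Γ x.1 w)

inductive Sh : List (Σ v, M v) → List (Σ v, M v) → Prop
  | nil : Sh [] []
  | cons (x) {w w'} : Sh w w' → Sh (x :: w) (x :: w')
  | swap (x y : Σ v, M v) (h : Γ.Adj x.1 y.1) (w) : Sh (x :: y :: w) (y :: x :: w)
  | trans {a b c} : Sh a b → Sh b c → Sh a c

variable {Γ}

@[simp] lemma hd_nil (v : V) : hd Γ (M := M) v [] = 1 := rfl
@[simp] lemma tl_nil (v : V) : tl Γ (M := M) v [] = [] := rfl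
@[simp] lemma hd_same (v : V) (m : M v) (w) : hd Γ v (⟨v, m⟩ :: w) = m := by simp [hd]
@[simp] lemma tl_same (v : V) (m : M v) (w) : tl Γ v (⟨v, m⟩ :: w) = w := by simp [tl]
lemma hd_adj {v : V} {x : Σ v, M v} (h : Γ.Adj x.1 v) (w) : hd Γ v (x :: w) = hd Γ v w := by
  simp [hd, h, h.ne]
lemma tl_adj {v : V} {x : Σ v, M v} (h : Γ.Adj x.1 v) (w) :
    tl Γ v (x :: w) = x :: tl Γ v w := by
  simp [tl, h, h.ne]
lemma hd_non {v : V} {x : Σ v, M v} (h : x.1 ≠ v) (h' : ¬ Γ.Adj x.1 v) (w) :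
    hd Γ v (x :: w) = 1 := by simp [hd, h, h']
lemma tl_non {v : V} {x : Σ v, M v} (h : x.1 ≠ v) (h' : ¬ Γ.Adj x.1 v) (w) :
    tl Γ v (x :: w) = x :: w := by simp [tl, h, h']

lemma tri (Γ : SimpleGraph V) (u v : V) : u = v ∨ Γ.Adj u v ∨ (u ≠ v ∧ ¬ Γ.Adj u v) := by tauto

lemma tl_eq {v : V} {w : List (Σ v, M v)} (hr : Red Γ w) (h : hd Γ v w = 1) : tl Γ v w = w := by
  induction w with
  | nil => rfl
  | cons x w ih =>
    obtain ⟨z, m⟩ := x
    rcases tri Γ z v with rfl | a | ⟨a, b⟩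
    · exact absurd (by simpa using h) hr.1
    · rw [hd_adj a] at h
      rw [tl_adj a, ih hr.2.2 h]
    · exact tl_non a b _

lemma hd_tl_adj {u v : V} (h : Γ.Adj u v) (w : List (Σ v, M v)) :
    hd Γ u (tl Γ v w) = hd Γ u w := by
  induction w with
  | nil => rfl
  | cons x w ih =>
    obtain ⟨z, m⟩ := x
    rcases tri Γ z v with rfl | a | ⟨a, b⟩
    · rw [tl_same, hd_adj h.symm]
    · rw [tl_adj a]
      rcases tri Γ z u with rfl | c | ⟨c, d⟩
      · simp
      · rw [hd_adj c, hd_adj c, ih]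
      · rw [hd_non c d, hd_non c d]
    · rw [tl_non a b]

lemma hd_tl {v : V} {w : List (Σ v, M v)} (hr : Red Γ w) : hd Γ v (tl Γ v w) = 1 := by
  induction w with
  | nil => rfl
  | cons x w ih =>
    obtain ⟨z, m⟩ := x
    rcases tri Γ z v with rfl | a | ⟨a, b⟩
    · rw [tl_same]; exact hr.2.1
    · rw [tl_adj a, hd_adj a, ih hr.2.2]
    · rw [tl_non a b, hd_non a b]

lemma red_tl {v : V} {w : List (Σ v, M v)} (hr : Red Γ w) : Red Γ (tl Γ v w) := by
  induction w with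
  | nil => trivial
  | cons x w ih =>
    obtain ⟨z, m⟩ := x
    rcases tri Γ z v with rfl | a | ⟨a, b⟩
    · rw [tl_same]; exact hr.2.2
    · rw [tl_adj a]
      exact ⟨hr.1, (hd_tl_adj a w).trans hr.2.1, ih hr.2.2⟩
    · rw [tl_non a b]; exact hr

lemma red_cs {v : V} (m : M v) {w : List (Σ v, M v)} (hr : Red Γ w) (h : hd Γ v w = 1) :
    Red Γ (cs v m w) := by
  unfold cs
  split_ifs with hm
  · exact hr
  · exact ⟨hm, h, hr⟩

lemma red_act (x : Σ v, M v) {w : List (Σ v, M v)} (hr : Red Γ w) : Red Γ (act Γ x w) :=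
  red_cs _ (red_tl hr) (hd_tl hr)

lemma tl_tl {u v : V} (h : Γ.Adj u v) (w : List (Σ v, M v)) :
    tl Γ u (tl Γ v w) = tl Γ v (tl Γ u w) := by
  induction w with
  | nil => rfl
  | cons x w ih =>
    obtain ⟨z, m⟩ := x
    rcases tri Γ z v with rfl | a | ⟨a, b⟩
    · rw [tl_same, tl_adj h.symm, tl_same]
    · rcases tri Γ z u with rfl | c | ⟨c, d⟩
      · rw [tl_same, tl_adj h, tl_same]
      · rw [tl_adj a, tl_adj c, tl_adj c, tl_adj a, ih]
      · rw [tl_adj a, tl_non c d, tl_non c d, tl_adj a]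
    · rcases tri Γ z u with rfl | c | ⟨c, d⟩
      · exact absurd h b
      · rw [tl_non a b, tl_adj c, tl_non a b]
      · rw [tl_non a b, tl_non c d, tl_non a b]

lemma hd_cs {v : V} (m : M v) {w : List (Σ v, M v)} (h : hd Γ v w = 1) :
    hd Γ v (cs v m w) = m := by
  unfold cs
  split_ifs with hm
  · rw [h, hm]
  · simp

lemma tl_cs {v : V} (m : M v) {w : List (Σ v, M v)} (hr : Red Γ w) (h : hd Γ v w = 1) :
    tl Γ v (cs v m w) = w := by
  unfold cs
  split_ifs with hm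
  · exact tl_eq hr h
  · simp

lemma hd_cs_adj {u v : V} (a : Γ.Adj u v) (m : M u) (w : List (Σ v, M v)) :
    hd Γ v (cs u m w) = hd Γ v w := by
  unfold cs
  split_ifs with hm
  · rfl
  · exact hd_adj a _

lemma tl_cs_adj {u v : V} (a : Γ.Adj u v) (m : M u) (w : List (Σ v, M v)) :
    tl Γ v (cs u m w) = cs u m (tl Γ v w) := by
  unfold cs
  split_ifs with hm
  · rfl
  · exact tl_adj a _

lemma Sh.refl : ∀ w : List (Σ v, M v), Sh Γ w w
  | [] => .nil
  | x :: w => .cons x (Sh.refl w)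

lemma Sh.symm {a b : List (Σ v, M v)} (h : Sh Γ a b) : Sh Γ b a := by
  induction h with
  | nil => exact .nil
  | cons x _ ih => exact .cons x ih
  | swap x y h w => exact .swap y x h.symm w
  | trans _ _ i1 i2 => exact i2.trans i1

lemma Sh.perm {a b : List (Σ v, M v)} (h : Sh Γ a b) : a.Perm b := by
  induction h with
  | nil => exact .nil
  | cons x _ ih => exact .cons x ih
  | swap x y h w => exact .swap y x w
  | trans _ _ i1 i2 => exact i1.trans i2

lemma Sh.hd_eq {a b : List (Σ v, M v)} (h : Sh Γ a b) (v : V) : hd Γ v a = hd Γ v b := by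
  induction h with
  | nil => rfl
  | cons x _ ih =>
    obtain ⟨z, m⟩ := x
    rcases tri Γ z v with rfl | a | ⟨a, b⟩
    · simp
    · rw [hd_adj a, hd_adj a, ih]
    · rw [hd_non a b, hd_non a b]
  | swap x y h w =>
    obtain ⟨z, m⟩ := x
    obtain ⟨t, n⟩ := y
    rcases tri Γ z v with rfl | a | ⟨a, b⟩
    · rw [hd_same, hd_adj h.symm, hd_same]
    · rcases tri Γ t v with rfl | c | ⟨c, d⟩
      · rw [hd_same, hd_adj h, hd_same]
      · rw [hd_adj a, hd_adj c, hd_adj c, hd_adj a]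
      · rw [hd_adj a, hd_non c d, hd_non c d]
    · rcases tri Γ t v with rfl | c | ⟨c, d⟩
      · exact absurd h b
      · rw [hd_non a b, hd_adj c, hd_non a b]
      · rw [hd_non a b, hd_non c d]
  | trans _ _ i1 i2 => exact i1.trans i2

lemma Sh.tl_sh {a b : List (Σ v, M v)} (h : Sh Γ a b) (v : V) : Sh Γ (tl Γ v a) (tl Γ v b) := by
  induction h with
  | nil => exact .nil
  | cons x h ih =>
    obtain ⟨z, m⟩ := x
    rcases tri Γ z v with rfl | a | ⟨a, b⟩
    · simpa using h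
    · rw [tl_adj a, tl_adj a]; exact .cons _ ih
    · rw [tl_non a b, tl_non a b]; exact .cons _ h
  | swap x y h w =>
    obtain ⟨z, m⟩ := x
    obtain ⟨t, n⟩ := y
    rcases tri Γ z v with rfl | a | ⟨a, b⟩
    · rw [tl_same, tl_adj h.symm, tl_same]; exact .refl _
    · rcases tri Γ t v with rfl | c | ⟨c, d⟩
      · rw [tl_same, tl_adj h, tl_same]; exact .refl _
      · rw [tl_adj a, tl_adj c, tl_adj c, tl_adj a]; exact .swap _ _ h _
      · rw [tl_adj a, tl_non c d, tl_non c d]; exact .swap _ _ h _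
    · rcases tri Γ t v with rfl | c | ⟨c, d⟩
      · exact absurd h b
      · rw [tl_non a b, tl_adj c, tl_non a b]; exact .swap _ _ h _
      · rw [tl_non a b, tl_non c d]; exact .swap _ _ h _
  | trans _ _ i1 i2 => exact i1.trans i2

lemma Sh.red {a b : List (Σ v, M v)} (h : Sh Γ a b) (hr : Red Γ a) : Red Γ b := by
  induction h with
  | nil => trivial
  | cons x h ih => exact ⟨hr.1, (h.hd_eq _).symm.trans hr.2.1, ih hr.2.2⟩
  | swap x y h w =>
    exact ⟨hr.2.2.1, (hd_adj h w).trans hr.2.2.2.1, hr.1, (hd_adj h.symm w).symm.trans hr.2.1,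
      hr.2.2.2.2⟩
  | trans _ _ i1 i2 => exact i2 (i1 hr)

lemma Sh.cs_sh {a b : List (Σ v, M v)} (h : Sh Γ a b) (v : V) (m : M v) :
    Sh Γ (cs v m a) (cs v m b) := by
  unfold cs
  split_ifs
  · exact h
  · exact .cons _ h

lemma Sh.act_sh {a b : List (Σ v, M v)} (h : Sh Γ a b) (x) : Sh Γ (act Γ x a) (act Γ x b) := by
  unfold act
  rw [h.hd_eq]
  exact (h.tl_sh _).cs_sh _ _

lemma cs_swap {u v : V} (h : Γ.Adj u v) (a : M u) (b : M v) (w : List (Σ v, M v)) :
    Sh Γ (cs u a (cs v b w)) (cs v b (cs u a w)) := by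
  unfold cs
  split_ifs
  · exact .refl _
  · exact .refl _
  · exact .refl _
  · exact .swap ⟨u, a⟩ ⟨v, b⟩ h w

lemma sh_cs {w : List (Σ v, M v)} (hr : Red Γ w) (v : V) :
    Sh Γ w (cs v (hd Γ v w) (tl Γ v w)) := by
  induction w with
  | nil => simpa [cs] using Sh.nil
  | cons x w ih =>
    obtain ⟨z, m⟩ := x
    rcases tri Γ z v with rfl | a | ⟨a, b⟩
    · rw [hd_same, tl_same, cs, if_neg hr.1]; exact .refl _
    · rw [hd_adj a, tl_adj a]
      refine (Sh.cons _ (ih hr.2.2)).trans ?_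
      have := cs_swap a m (hd Γ v w) (tl Γ v w)
      rwa [cs, if_neg hr.1, cs.eq_1 z, if_neg hr.1] at this
    · rw [hd_non a b, tl_non a b, cs, if_pos rfl]; exact .refl _

lemma act_act {v : V} (a b : M v) {w : List (Σ v, M v)} (hr : Red Γ w) :
    act Γ ⟨v, a⟩ (act Γ ⟨v, b⟩ w) = act Γ ⟨v, a * b⟩ w := by
  simp only [act]
  rw [hd_cs _ (hd_tl hr), tl_cs _ (red_tl hr) (hd_tl hr), mul_assoc]

lemma act_comm {u v : V} (h : Γ.Adj u v) (a : M u) (b : M v) (w : List (Σ v, M v)) :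
    Sh Γ (act Γ ⟨u, a⟩ (act Γ ⟨v, b⟩ w)) (act Γ ⟨v, b⟩ (act Γ ⟨u, a⟩ w)) := by
  simp only [act]
  rw [hd_cs_adj h.symm, tl_cs_adj h.symm, hd_cs_adj h, tl_cs_adj h, hd_tl_adj h, hd_tl_adj h.symm,
    tl_tl h]
  exact cs_swap h _ _ _

lemma red_ap (u : List (Σ v, M v)) {w : List (Σ v, M v)} (hr : Red Γ w) :
    Red Γ (u.foldr (act Γ) w) := by
  induction u with
  | nil => exact hr
  | cons x u ih => exact red_act x ih

lemma sh_ap (u : List (Σ v, M v)) {w w' : List (Σ v, M v)} (h : Sh Γ w w') :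
    Sh Γ (u.foldr (act Γ) w) (u.foldr (act Γ) w') := by
  induction u with
  | nil => exact h
  | cons x u ih => exact ih.act_sh x

variable (Γ M) in
def cn : Con (FreeMonoid (Σ v, M v)) where
  r a b := ∀ w, Red Γ w → Sh Γ (a.toList.foldr (act Γ) w) (b.toList.foldr (act Γ) w)
  iseqv := ⟨fun _ _ _ => .refl _, fun h w hw => (h w hw).symm,
    fun h h' w hw => (h w hw).trans (h' w hw)⟩
  mul' := by
    intro a b c d h h' w hw
    simp only [FreeMonoid.toList_mul, List.foldr_append]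
    exact (sh_ap _ (h' w hw)).trans (h _ (red_ap _ hw))

lemma le_cn : conGen (Rel Γ M) ≤ cn Γ M := by
  apply Con.conGen_le.2
  intro a b h
  induction h with
  | mul v a b =>
    intro w hw
    simp only [FreeMonoid.toList_mul, FreeMonoid.toList_of, List.foldr_append, List.foldr]
    rw [act_act a b hw]; exact .refl _
  | one v =>
    intro w hw
    simp only [FreeMonoid.toList_one, FreeMonoid.toList_of, List.foldr, act, one_mul]
    exact (sh_cs hw v).symm
  | comm u v h a b =>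
    intro w hw
    simp only [FreeMonoid.toList_mul, FreeMonoid.toList_of, List.foldr_append, List.foldr]
    exact act_comm h a b w

lemma ap_nil {w : List (Σ v, M v)} (hr : Red Γ w) : w.foldr (act Γ) [] = w := by
  induction w with
  | nil => rfl
  | cons x w ih =>
    rw [List.foldr_cons, ih hr.2.2, act, hr.2.1, mul_one, tl_eq hr.2.2 hr.2.1, cs, if_neg hr.1]

variable (Γ) in
def mk (w : List (Σ v, M v)) : GP Γ M := (conGen (Rel Γ M)).mk' (FreeMonoid.ofList w)

lemma nf_uniq {a b : List (Σ v, M v)} (ha : Red Γ a) (hb : Red Γ b) (h : mk Γ a = mk Γ b) :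
    Sh Γ a b := by
  have h1 : conGen (Rel Γ M) (FreeMonoid.ofList a) (FreeMonoid.ofList b) := Con.eq _ |>.1 h
  have h2 := le_cn h1 [] trivial
  simpa [ap_nil ha, ap_nil hb] using h2

@[simp] lemma mk_nil : mk Γ (M := M) [] = 1 := rfl
lemma mk_append (a b : List (Σ v, M v)) : mk Γ (a ++ b) = mk Γ a * mk Γ b := by
  simp [mk, FreeMonoid.ofList_append]

variable (Γ) in
def io (v : V) : M v →* GP Γ M where
  toFun m := mk Γ [⟨v, m⟩]
  map_one' := (Con.eq _).2 (ConGen.Rel.of _ _ (Rel.one v))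
  map_mul' a b := ((Con.eq _).2 (ConGen.Rel.of _ _ (Rel.mul v a b))).symm

lemma mk_cons (x : Σ v, M v) (w) : mk Γ (x :: w) = io Γ x.1 x.2 * mk Γ w :=
  mk_append [x] w

lemma io_comm {u v : V} (h : Γ.Adj u v) (a : M u) (b : M v) :
    io Γ u a * io Γ v b = io Γ v b * io Γ u a :=
  (Con.eq _).2 (ConGen.Rel.of _ _ (Rel.comm u v h a b))

lemma mk_cs (v : V) (m : M v) (w) : mk Γ (cs v m w) = io Γ v m * mk Γ w := by
  unfold cs
  split_ifs with h
  · simp [h]
  · exact mk_cons _ _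

lemma Sh.mk_eq {a b : List (Σ v, M v)} (h : Sh Γ a b) : mk Γ a = mk Γ b := by
  induction h with
  | nil => rfl
  | cons x _ ih => rw [mk_cons, mk_cons, ih]
  | swap x y h w => simp only [mk_cons, ← mul_assoc, io_comm h]
  | trans _ _ i1 i2 => exact i1.trans i2

lemma mk_act (x : Σ v, M v) {w} (hr : Red Γ w) : mk Γ (act Γ x w) = io Γ x.1 x.2 * mk Γ w := by
  rw [act, mk_cs, (sh_cs hr x.1).mk_eq, mk_cs, map_mul, mul_assoc]

lemma ex_red (g : GP Γ M) : ∃ w, Red Γ w ∧ mk Γ w = g := by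
  obtain ⟨u, rfl⟩ := Con.mk'_surjective g
  change ∃ w, Red Γ w ∧ mk Γ w = mk Γ u.toList
  induction u.toList with
  | nil => exact ⟨[], trivial, rfl⟩
  | cons x u ih =>
    obtain ⟨w, hw, e⟩ := ih
    exact ⟨act Γ x w, red_act x hw, by rw [mk_act x hw, e, mk_cons]⟩

end Pool.Agent.H.MP_96aaf1_al
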