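import Pool.Agent.H.MP_96aaf1_al.A

namespace Pool.Agent.H.MP_96aaf1_al

universe u w

variable {V : Type u} {Γ : SimpleGraph V} {M : V → Type w} [∀ v, Monoid (M v)]

noncomputable def nf (g : GP Γ M) : List (Σ v, M v) := (ex_red g).choose
lemma nf_red (g : GP Γ M) : Red Γ (nf g) := (ex_red g).choose_spec.1
lemma mk_nf (g : GP Γ M) : mk Γ (nf g) = g := (ex_red g).choose_spec.2
lemma nf_sh {w : List (Σ v, M v)} (hr : Red Γ w) : Sh Γ (nf (mk Γ w)) w :=
  nf_uniq (nf_red _) hr (mk_nf _)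

noncomputable def F (v : V) (g : GP Γ M) : M v := hd Γ v (nf g)
noncomputable def T (v : V) (g : GP Γ M) : GP Γ M := mk Γ (tl Γ v (nf g))
open Classical in
noncomputable def cnt (S : V → Prop) (g : GP Γ M) : ℕ := (nf g).countP (fun x => S x.1)

lemma F_mk (v : V) {w : List (Σ v, M v)} (hr : Red Γ w) : F v (mk Γ w) = hd Γ v w :=
  (nf_sh hr).hd_eq v
lemma T_mk (v : V) {w : List (Σ v, M v)} (hr : Red Γ w) : T v (mk Γ w) = mk Γ (tl Γ v w) :=
  ((nf_sh hr).tl_sh v).mk_eq
open Classical in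
lemma cnt_mk (S : V → Prop) {w : List (Σ v, M v)} (hr : Red Γ w) :
    cnt S (mk Γ w) = w.countP (fun x => S x.1) := (nf_sh hr).perm.countP_eq _

lemma FT (v : V) (g : GP Γ M) : io Γ v (F v g) * T v g = g := by
  rw [F, T, ← mk_cs, ← (sh_cs (nf_red g) v).mk_eq, mk_nf]

lemma F_T (v : V) (g : GP Γ M) : F v (T v g) = 1 := by
  rw [T, F_mk _ (red_tl (nf_red g)), hd_tl (nf_red g)]

lemma F_one (v : V) : F v (1 : GP Γ M) = 1 := F_mk v (w := []) trivial
lemma T_eq {v : V} {g : GP Γ M} (h : F v g = 1) : T v g = g := by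
  have := FT v g
  rwa [h, map_one, one_mul] at this

lemma F_io (v : V) (m : M v) (g : GP Γ M) : F v (io Γ v m * g) = m * F v g := by
  obtain ⟨w, hw, rfl⟩ := ex_red g
  rw [← mk_act ⟨v, m⟩ hw, F_mk _ (red_act _ hw), F_mk _ hw, act, hd_cs _ (hd_tl hw)]

lemma T_io (v : V) (m : M v) (g : GP Γ M) : T v (io Γ v m * g) = T v g := by
  obtain ⟨w, hw, rfl⟩ := ex_red g
  rw [← mk_act ⟨v, m⟩ hw, T_mk _ (red_act _ hw), T_mk _ hw, act,
    tl_cs _ (red_tl hw) (hd_tl hw)]

lemma F_adj {u v : V} (h : Γ.Adj u v) (m : M u) (g : GP Γ M) : F v (io Γ u m * g) = F v g := by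
  obtain ⟨w, hw, rfl⟩ := ex_red g
  rw [← mk_act ⟨u, m⟩ hw, F_mk _ (red_act _ hw), F_mk _ hw, act, hd_cs_adj h,
    hd_tl_adj h.symm]

lemma T_adj {u v : V} (h : Γ.Adj u v) (m : M u) (g : GP Γ M) :
    T v (io Γ u m * g) = io Γ u m * T v g := by
  obtain ⟨w, hw, rfl⟩ := ex_red g
  rw [← mk_act ⟨u, m⟩ hw, T_mk _ (red_act _ hw), T_mk _ hw, act, tl_cs_adj h,
    ← mk_act ⟨u, m⟩ (red_tl hw), act, hd_tl_adj h, tl_tl h]

lemma adj_of {u v : V} {g : GP Γ M} (hu : F u g ≠ 1) (hv : F v g ≠ 1) (h : u ≠ v) :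
    Γ.Adj u v := by
  by_contra h'
  apply hv
  have := (sh_cs (nf_red g) u).hd_eq v
  rw [cs, if_neg (show ¬ hd Γ u (nf g) = 1 from hu), hd_non h h'] at this
  exact this

open Classical in
lemma cnt_T (S : V → Prop) (v : V) (g : GP Γ M) :
    cnt S g = cnt S (T v g) + if F v g ≠ 1 ∧ S v then 1 else 0 := by
  have := (sh_cs (nf_red g) v).perm.countP_eq (fun x => S x.1)
  rw [T, cnt_mk _ (red_tl (nf_red g)), cnt, this, cs, F]
  by_cases h : hd Γ v (nf g) = 1
  · simp [h]
  · simp [h, List.countP_cons]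

lemma cnt_io {S : V → Prop} {v : V} (h : ¬ S v) (m : M v) (g : GP Γ M) :
    cnt S (io Γ v m * g) = cnt S g := by
  rw [cnt_T S v, cnt_T S v g, T_io]
  simp [h]

lemma ex_F {g : GP Γ M} (h : g ≠ 1) : ∃ u, F u g ≠ 1 := by
  obtain ⟨w, hw, rfl⟩ := ex_red g
  cases w with
  | nil => exact absurd rfl h
  | cons x w => exact ⟨x.1, by rw [F_mk _ hw, hd_same]; exact hw.1⟩

variable (Γ M) in
def Sb (S : V → Prop) : Submonoid (GP Γ M) :=
  Submonoid.closure {g | ∃ z m, S z ∧ g = io Γ z m}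

lemma io_mem {S : V → Prop} {z : V} (h : S z) (m : M z) : io Γ z m ∈ Sb Γ M S :=
  Submonoid.subset_closure ⟨z, m, h, rfl⟩

lemma mk_mem {S : V → Prop} {w : List (Σ v, M v)} (h : ∀ x ∈ w, S x.1) : mk Γ w ∈ Sb Γ M S := by
  induction w with
  | nil => exact one_mem _
  | cons x w ih =>
    rw [mk_cons]
    exact mul_mem (io_mem (h x (by simp)) _) (ih fun y hy => h y (by simp [hy]))

lemma Sb_ind {S : V → Prop} {p : GP Γ M → Prop} (h1 : p 1)
    (h2 : ∀ z m g, S z → g ∈ Sb Γ M S → p g → p (io Γ z m * g)) {g} (hg : g ∈ Sb Γ M S) : p g := by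
  induction hg using Submonoid.closure_induction_left with
  | one => exact h1
  | mul_left x hx y hy ih =>
    obtain ⟨z, m, hz, rfl⟩ := hx
    exact h2 z m y hz hy ih

lemma cnt_Sb {S S' : V → Prop} (h : ∀ z, S z → ¬ S' z) {n} (hn : n ∈ Sb Γ M S) (g : GP Γ M) :
    cnt S' (n * g) = cnt S' g := by
  refine Sb_ind (p := fun n => cnt S' (n * g) = cnt S' g) (by simp) ?_ hn
  intro z m n hz _ ih
  rw [mul_assoc, cnt_io (h z hz), ih]

lemma mem_of_cnt {S : V → Prop} {g : GP Γ M} (h : cnt (fun z => ¬ S z) g = 0) : g ∈ Sb Γ M S := by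
  rw [← mk_nf g]
  apply mk_mem
  intro x hx
  rw [cnt, List.countP_eq_zero] at h
  simpa using h x hx

lemma cnt_one (S : V → Prop) : cnt S (1 : GP Γ M) = 0 := cnt_mk S (w := []) trivial

lemma F_Sb {S : V → Prop} {g : GP Γ M} (hg : g ∈ Sb Γ M S) {z} (h : F z g ≠ 1) : S z := by
  by_contra hz
  have h1 := cnt_Sb (S' := fun z => ¬ S z) (fun z hz => not_not.2 hz) hg 1
  rw [cnt_one, mul_one, cnt_T _ z] at h1
  simp [h, hz] at h1

/-- link and star submonoids -/
abbrev Lk (Γ : SimpleGraph V) (v : V) : V → Prop := fun z => Γ.Adj z v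
abbrev St (Γ : SimpleGraph V) (v : V) : V → Prop := fun z => z = v ∨ Γ.Adj z v

lemma F_lk {v : V} {n} (hn : n ∈ Sb Γ M (Lk Γ v)) (g : GP Γ M) : F v (n * g) = F v g := by
  refine Sb_ind (p := fun n => F v (n * g) = F v g) (by simp) ?_ hn
  intro z m n hz _ ih
  rw [mul_assoc, F_adj hz, ih]

lemma T_lk {v : V} {n} (hn : n ∈ Sb Γ M (Lk Γ v)) (g : GP Γ M) : T v (n * g) = n * T v g := by
  refine Sb_ind (p := fun n => T v (n * g) = n * T v g) (by simp) ?_ hn
  intro z m n hz _ ih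
  rw [mul_assoc, T_adj hz, ih, mul_assoc]

lemma F_lk1 {v : V} {n} (hn : n ∈ Sb Γ M (Lk Γ v)) : F v n = 1 := by
  have := F_lk hn 1
  rwa [mul_one, F_one] at this

lemma comm_lk {v : V} {n} (hn : n ∈ Sb Γ M (Lk Γ v)) (m : M v) :
    n * io Γ v m = io Γ v m * n := by
  refine Sb_ind (p := fun n => n * io Γ v m = io Γ v m * n) (by simp) ?_ hn
  intro z m' n hz _ ih
  rw [mul_assoc, ih, ← mul_assoc, io_comm hz, mul_assoc]

lemma T_st {v : V} {g} (hg : g ∈ Sb Γ M (St Γ v)) : T v g ∈ Sb Γ M (Lk Γ v) := by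
  refine Sb_ind (p := fun g => T v g ∈ Sb Γ M (Lk Γ v)) ?_ ?_ hg
  · rw [T_eq (F_one v)]; exact one_mem _
  · rintro z m g (rfl | hz) _ ih
    · rwa [T_io]
    · rw [T_adj hz]; exact mul_mem (io_mem (S := Lk Γ v) hz _) ih

lemma lk_st {v : V} {g} (hg : g ∈ Sb Γ M (Lk Γ v)) : g ∈ Sb Γ M (St Γ v) :=
  Submonoid.closure_mono (by rintro _ ⟨z, m, h, rfl⟩; exact ⟨z, m, Or.inr h, rfl⟩) hg

lemma hd_app1 {z : V} {a : List (Σ v, M v)} (h : ∀ y ∈ a, Γ.Adj y.1 z) (b) :
    hd Γ z (a ++ b) = hd Γ z b := by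
  induction a with
  | nil => rfl
  | cons x a ih =>
    rw [List.cons_append, hd_adj (h x (by simp)), ih fun y hy => h y (by simp [hy])]

lemma hd_app2 {z : V} {a : List (Σ v, M v)} (h : ¬ ∀ y ∈ a, Γ.Adj y.1 z) (b) :
    hd Γ z (a ++ b) = hd Γ z a := by
  induction a with
  | nil => simp at h
  | cons x a ih =>
    obtain ⟨t, m⟩ := x
    rw [List.cons_append]
    rcases tri Γ t z with rfl | c | ⟨c, d⟩
    · simp
    · rw [hd_adj c, hd_adj c, ih]
      intro h'
      apply h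
      intro y hy
      rcases List.mem_cons.1 hy with rfl | hy
      · exact c
      · exact h' y hy
    · rw [hd_non c d, hd_non c d]

lemma sh_move {x : Σ v, M v} {a : List (Σ v, M v)} (h : ∀ y ∈ a, Γ.Adj y.1 x.1) (b) :
    Sh Γ (x :: (a ++ b)) (a ++ x :: b) := by
  induction a with
  | nil => exact .refl _
  | cons y a ih =>
    exact (Sh.swap x y (h y (by simp)).symm _).trans
      (.cons y (ih fun t ht => h t (by simp [ht])))

lemma split_w (u : V) {w : List (Σ v, M v)} (hr : Red Γ w) : ∃ a s, Sh Γ w (a ++ s) ∧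
    (∀ y ∈ s, St Γ u y.1) ∧
    ∀ b, Red Γ b → (∀ z, hd Γ z b ≠ 1 → St Γ u z) → Red Γ (a ++ b) := by
  induction w with
  | nil => exact ⟨[], [], .nil, by simp, fun b hb _ => hb⟩
  | cons x w ih =>
    obtain ⟨a, s, h1, h2, h3⟩ := ih hr.2.2
    by_cases h : St Γ u x.1 ∧ ∀ y ∈ a, Γ.Adj y.1 x.1
    · refine ⟨a, x :: s, (Sh.cons x h1).trans (sh_move h.2 s), ?_, h3⟩
      intro y hy
      rcases List.mem_cons.1 hy with rfl | hy
      · exact h.1
      · exact h2 y hy
    · refine ⟨x :: a, s, .cons x h1, h2, fun b hb hb' => ⟨hr.1, ?_, h3 b hb hb'⟩⟩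
      show hd Γ x.1 (a ++ b) = 1
      by_cases h' : ∀ y ∈ a, Γ.Adj y.1 x.1
      · rw [hd_app1 h']
        by_contra hc
        exact h ⟨hb' _ hc, h'⟩
      · rw [hd_app2 h', ← hd_app2 h' s, ← h1.hd_eq]
        exact hr.2.1

lemma split_g (u : V) (g : GP Γ M) : ∃ g1 s, s ∈ Sb Γ M (St Γ u) ∧ g = g1 * s ∧
    (∀ h, (∀ z, F z h ≠ 1 → St Γ u z) → ∀ S, cnt S (g1 * h) = cnt S g1 + cnt S h) ∧
    (g1 ∈ Sb Γ M (Lk Γ u) ∨ ∀ h, (∀ z, F z h ≠ 1 → St Γ u z) → F u (g1 * h) = F u g1) := by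
  obtain ⟨a, s, h1, h2, h3⟩ := split_w u (nf_red g)
  have ha : Red Γ a := by simpa using h3 [] trivial (by simp)
  refine ⟨mk Γ a, mk Γ s, mk_mem h2, by rw [← mk_append, ← h1.mk_eq, mk_nf], ?_, ?_⟩
  · intro h hh S
    have := h3 (nf h) (nf_red h) hh
    conv_lhs => rw [← mk_nf h, ← mk_append, cnt_mk _ this]
    rw [cnt_mk _ ha, List.countP_append]
    rfl
  · by_cases h' : ∀ y ∈ a, Γ.Adj y.1 u
    · exact Or.inl (mk_mem h')
    · refine Or.inr fun h hh => ?_
      have := h3 (nf h) (nf_red h) hh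
      conv_lhs => rw [← mk_nf h, ← mk_append, F_mk _ this]
      rw [F_mk _ ha, hd_app2 h']

lemma lemZ {v : V} {r : GP Γ M} (hr : F v r = 1) :
    r ∈ Sb Γ M (Lk Γ v) ∨ ∀ h ∈ Sb Γ M (St Γ v), F v (r * h) = 1 := by
  obtain ⟨g1, s, hs, rfl, -, h | h⟩ := split_g v r
  · left
    rw [F_lk h] at hr
    refine mul_mem h ?_
    rw [← T_eq hr]
    exact T_st hs
  · refine Or.inr fun k hk => ?_
    rw [mul_assoc, h _ fun z hz => F_Sb (mul_mem hs hk) hz, ← h _ fun z hz => F_Sb hs hz, hr]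

/-- total length -/
noncomputable abbrev len (g : GP Γ M) : ℕ := cnt (fun _ => True) g

lemma struct {e : GP Γ M} (he : e * e = e) (h1 : e ≠ 1) : ∃ u, F u e ≠ 1 ∧
    ((T u e ∈ Sb Γ M (Lk Γ u) ∧ F u e * F u e = F u e ∧ T u e * T u e = T u e ∧
      len (T u e) < len e) ∨
    ∃ m : M u, ∃ d, m * F u e = 1 ∧ d = io Γ u m * e * io Γ u (F u e) ∧ F u d = 1 ∧
      d ∉ Sb Γ M (Lk Γ u) ∧ len d < len e ∧ e * io Γ u (F u e * m) = e) := by
  obtain ⟨u, hu⟩ := ex_F h1
  refine ⟨u, hu, ?_⟩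
  obtain ⟨s, hs⟩ : ∃ s, s = F u e := ⟨_, rfl⟩
  obtain ⟨r, hr⟩ : ∃ r, r = T u e := ⟨_, rfl⟩
  have hsr : io Γ u s * r = e := by rw [hs, hr, FT]
  have hFr : F u r = 1 := by rw [hr, F_T]
  have hlen : len r < len e := by
    have := cnt_T (fun _ => True) u e
    rw [← hr] at this
    simp only [len, this, ne_eq, hu, not_false_eq_true, and_self, if_true]
    omega
  rw [← hs] at hu ⊢
  rw [← hr]
  have key : r ∈ Sb Γ M (Lk Γ u) → s * s = s ∧ r * r = r := fun hrN => by
    have e2 : e * e = io Γ u (s * s) * (r * r) := by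
      rw [← hsr, map_mul, mul_assoc, ← mul_assoc r, comm_lk hrN]
      simp only [mul_assoc]
    rw [he] at e2
    constructor
    · have := congrArg (F u) e2
      rw [F_io, F_lk1 (mul_mem hrN hrN), mul_one, ← hs] at this
      exact this.symm
    · have := congrArg (T u) e2
      rw [T_io, T_eq (F_lk1 (mul_mem hrN hrN)), ← hr] at this
      exact this.symm
  obtain ⟨e1, σ, hσ, he1, hc, -⟩ := split_g u e
  obtain ⟨m, hm⟩ : ∃ m, m = F u σ := ⟨_, rfl⟩
  obtain ⟨n, hn⟩ : ∃ n, n = T u σ := ⟨_, rfl⟩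
  have hnN : n ∈ Sb Γ M (Lk Γ u) := hn ▸ T_st hσ
  have hmn : io Γ u m * n = σ := by rw [hm, hn, FT]
  by_cases hms : m * s = 1
  · right
    have hrN : r ∉ Sb Γ M (Lk Γ u) := fun hrN => by
      apply hu
      calc s = m * s * s := by rw [hms, one_mul]
        _ = 1 := by rw [mul_assoc, (key hrN).1, hms]
    have hd : io Γ u m * e * io Γ u s = r * io Γ u s := by
      rw [← hsr, ← mul_assoc, ← map_mul, hms, map_one, one_mul]
    have hF : F u (r * io Γ u s) = 1 :=
      (lemZ hFr).resolve_left hrN _ (io_mem (S := St Γ u) (Or.inl rfl) s)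
    have hes : e * io Γ u s = e1 * n := by
      rw [he1, ← hmn, ← comm_lk hnN, mul_assoc, mul_assoc, ← map_mul, hms, map_one, mul_one]
    have hes' : e * io Γ u s = io Γ u s * (r * io Γ u s) := by rw [← mul_assoc, hsr]
    have a1 : e * io Γ u (s * m) = e := by
      rw [map_mul, ← mul_assoc, hes, mul_assoc, comm_lk hnN, hmn, ← he1]
    refine ⟨m, r * io Γ u s, hms, hd.symm, hF, fun hN => hrN ?_, ?_, a1⟩
    · have a2 : e = io Γ u (s * m) * (io Γ u s * (r * io Γ u s) * io Γ u m) := by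
        rw [← hes', mul_assoc e, ← map_mul, a1, ← hsr, ← mul_assoc, ← map_mul, mul_assoc s, hms,
          mul_one]
      rw [mul_assoc (io Γ u s), comm_lk hN] at a2
      have := congrArg (T u) a2
      rw [T_io, T_io, T_io, T_eq (F_lk1 hN), ← hr] at this
      rwa [this]
    · have b1 := hc n (fun z hz => F_Sb (lk_st hnN) hz) (fun _ => True)
      have b2 := hc σ (fun z hz => F_Sb hσ hz) (fun _ => True)
      have b3 := cnt_T (fun _ => True) u σ
      have b4 := cnt_T (fun _ => True) u (e * io Γ u s)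
      rw [← hn] at b3
      rw [← he1] at b2
      rw [← hes] at b1
      rw [b1, hes', T_io, F_io, T_eq hF, hF, mul_one] at b4
      simp only [ne_eq, hu, not_false_eq_true, and_self, if_true] at b4
      simp only [len]
      omega
  · left
    have e2 : e = e1 * (io Γ u (m * s) * (n * r)) := by
      conv_lhs => rw [← he]
      conv_lhs => lhs; rw [he1, ← hmn]
      rw [← hsr, map_mul]
      simp only [mul_assoc]
      rw [← mul_assoc n, comm_lk hnN, mul_assoc]
    have hF : F u (io Γ u (m * s) * (n * r)) = m * s := by rw [F_io, F_lk hnN, hFr, mul_one]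
    have b1 := hc (io Γ u (m * s) * (n * r)) (fun z hz => by
      by_cases hzu : z = u
      · exact Or.inl hzu
      · exact Or.inr (adj_of hz (by rw [hF]; exact hms) hzu)) (fun z => ¬ Lk Γ u z)
    rw [← e2, cnt_T _ u e, cnt_T _ u (io Γ u (m * s) * (n * r)), hF, T_io, T_lk hnN, T_eq hFr,
      cnt_Sb (fun z hz => not_not.2 hz) hnN, ← hr, ← hs] at b1
    have hl : ¬ Lk Γ u u := Γ.irrefl
    rw [if_pos ⟨hu, hl⟩, if_pos ⟨hms, hl⟩] at b1
    have h0 : e1 ∈ Sb Γ M (Lk Γ u) := mem_of_cnt (by omega)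
    have hrN : r ∈ Sb Γ M (Lk Γ u) := by
      rw [hr, he1, T_lk h0, ← hn]
      exact mul_mem h0 hnN
    exact ⟨hrN, (key hrN).1, (key hrN).2, hlen⟩

lemma dich (k : ℕ) : ∀ e : GP Γ M, len e < k → e * e = e → ∀ g, e * g = g → ∀ v, F v g ≠ 1 →
    (F v e = F v g ∧ ∃ y, y * F v g = 1) ∨ T v e ∈ Sb Γ M (Lk Γ v) := by
  induction k with
  | zero => intro e h; omega
  | succ k ih =>
    intro e hk he g hg v hv
    by_cases h1 : e = 1
    · right
      rw [h1, T_eq (F_one v)]
      exact one_mem _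
    obtain ⟨u, hu, ⟨hN, hs, hr, hl⟩ | ⟨m, d, hm, hd, hF, hN, hl, hem⟩⟩ := struct he h1
    · by_cases huv : u = v
      · subst huv
        exact Or.inr hN
      have a1 : io Γ u (F u e) * e = e := by
        conv_lhs => rhs; rw [← FT u e]
        rw [← mul_assoc, ← map_mul, hs, FT]
      have a2 : T u e * e = e := by
        conv_lhs => rhs; rw [← FT u e]
        rw [← mul_assoc, comm_lk hN, mul_assoc, hr, FT]
      have a3 : F u g ≠ 1 := fun h => by
        have : io Γ u (F u e) * g = g := by rw [← hg, ← mul_assoc, a1]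
        have := congrArg (F u) this
        rw [F_io, h, mul_one] at this
        exact hu this
      have adj := adj_of a3 hv huv
      rcases ih (T u e) (by omega) hr g (by rw [← hg, ← mul_assoc, a2]) v hv with ⟨h, h'⟩ | h
      · refine Or.inl ⟨?_, h'⟩
        rw [← FT u e, F_adj adj, h]
      · right
        rw [← FT u e, T_adj adj]
        exact mul_mem (io_mem (S := Lk Γ v) adj _) h
    · obtain ⟨s, hs⟩ : ∃ s, s = F u e := ⟨_, rfl⟩
      rw [← hs] at hm hd hu hem
      have a1 : io Γ u s * (io Γ u m * e) = e := by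
        conv_lhs => rhs; rhs; rw [← FT u e, ← hs]
        rw [← mul_assoc (io Γ u m), ← map_mul, hm, map_one, one_mul, hs, FT]
      have a1' : ∀ z, io Γ u s * (io Γ u m * (e * z)) = e * z := fun z => by
        rw [← mul_assoc (io Γ u m), ← mul_assoc, a1]
      have he' : ∀ z, e * (e * z) = e * z := fun z => by rw [← mul_assoc, he]
      have a2 : d * d = d := by
        rw [hd]
        simp only [mul_assoc, a1', he']
      have a3 : io Γ u s * (io Γ u m * g) = g := by rw [← hg, a1']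
      have a4 : d * (io Γ u m * g) = io Γ u m * g := by
        rw [hd]
        simp only [mul_assoc]
        rw [a3, hg]
      have a5 : F u (io Γ u m * g) = 1 := by
        by_contra hc
        rcases ih d (by omega) a2 _ a4 u hc with ⟨h, -⟩ | h
        · exact hc (h.symm.trans hF)
        · exact hN (by rwa [T_eq hF] at h)
      have a6 : F u g = s := by rw [← a3, F_io, a5, mul_one]
      by_cases huv : u = v
      · subst huv
        exact Or.inl ⟨by rw [a6, hs], m, by rw [a6, hm]⟩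
      have adj := adj_of (by rw [a6]; exact hu) hv huv
      have a7 : e = io Γ u s * (io Γ v (F v d) * (T v d * io Γ u m)) := by
        rw [← mul_assoc (io Γ v _), FT, hd]
        simp only [mul_assoc]
        rw [a1', ← map_mul, hem]
      have a8 : F v (T v d * io Γ u m) = 1 := by
        rcases lemZ (F_T v d) with h | h
        · exact F_lk1 (mul_mem h (io_mem (S := Lk Γ v) adj _))
        · exact h _ (io_mem (S := St Γ v) (Or.inr adj) _)
      rcases ih d (by omega) a2 _ a4 v (by rw [F_adj adj]; exact hv) with ⟨h, h'⟩ | h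
      · rw [F_adj adj] at h h'
        refine Or.inl ⟨?_, h'⟩
        rw [a7, F_adj adj, F_io, a8, mul_one, h]
      · right
        rw [a7, T_adj adj, T_io, T_eq a8]
        exact mul_mem (io_mem (S := Lk Γ v) adj _) (mul_mem h (io_mem (S := Lk Γ v) adj _))

lemma rt_F {a b : GP Γ M} (h : Rt a b) (v : V) : Rt (F v a) (F v b) := by
  have k : ∀ (g : GP Γ M) (f : M v), f * F v g = F v g ↔ io Γ v f * g = g := fun g f => by
    constructor
    · intro hf
      conv_lhs => rw [← FT v g]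
      rw [← mul_assoc, ← map_mul, hf, FT]
    · intro hf
      rw [← F_io, hf]
  intro f hf
  rw [k, k]
  exact h _ (by rw [← map_mul, hf])

lemma step (H : ∀ v (a b c : M v), Rt a b → Rt (c * a) (c * b)) {a b : GP Γ M} (h : Rt a b)
    (v : V) (c : M v) (e : GP Γ M) (he : e * e = e) (hea : e * (io Γ v c * a) = io Γ v c * a) :
    e * (io Γ v c * b) = io Γ v c * b := by
  obtain ⟨s, hs⟩ : ∃ s, s = F v a := ⟨_, rfl⟩
  obtain ⟨r, hr⟩ : ∃ r, r = T v a := ⟨_, rfl⟩
  have hsr : io Γ v s * r = a := by rw [hs, hr, FT]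
  have he' : ∀ z, e * (e * z) = e * z := fun z => by rw [← mul_assoc, he]
  have key : ∀ y : M v, y * (c * s) = 1 → io Γ v (c * s * y) * e = e →
      e * (io Γ v c * b) = io Γ v c * b := fun y hy hye => by
    have k1 : ∀ z, io Γ v y * (io Γ v c * (io Γ v s * z)) = z := fun z => by
      rw [← mul_assoc (io Γ v c), ← map_mul, ← mul_assoc, ← map_mul, hy, map_one, one_mul]
    have k2 : ∀ z, io Γ v c * (io Γ v s * (io Γ v y * (e * z))) = e * z := fun z => by
      conv_rhs => rw [← hye]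
      simp only [map_mul, mul_assoc]
    have := (h (io Γ v s * io Γ v y * e * io Γ v c) (by simp only [mul_assoc, k2, he'])).1 (by
      simp only [mul_assoc]
      rw [hea, ← hsr, k1])
    conv_rhs => rw [← this]
    simp only [mul_assoc, k2]
  have hF : F v (io Γ v c * a) = c * s := by rw [F_io, hs]
  by_cases hx : c * s = 1
  · exact key 1 (by rw [hx, mul_one]) (by rw [hx, mul_one, map_one, one_mul])
  rcases dich _ e (Nat.lt_succ_self _) he _ hea v (by rw [hF]; exact hx) with ⟨h1, y, hy⟩ | hN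
  · rw [hF] at h1 hy
    refine key y hy ?_
    conv_lhs => rhs; rw [← FT v e]
    rw [← mul_assoc, ← map_mul, h1, mul_assoc, hy, mul_one, ← h1, FT]
  · obtain ⟨f, hf⟩ : ∃ f, f = F v e := ⟨_, rfl⟩
    obtain ⟨n, hn⟩ : ∃ n, n = T v e := ⟨_, rfl⟩
    rw [← hn] at hN
    have hfn : io Γ v f * n = e := by rw [hf, hn, FT]
    have e2 : e * e = io Γ v (f * f) * (n * n) := by
      rw [← hfn, map_mul, mul_assoc, ← mul_assoc n, comm_lk hN]
      simp only [mul_assoc]
    rw [he] at e2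
    have ff : f * f = f := by
      have := congrArg (F v) e2
      rw [F_io, F_lk1 (mul_mem hN hN), mul_one, ← hf] at this
      exact this.symm
    have nn : n * n = n := by
      have := congrArg (T v) e2
      rw [T_io, T_eq (F_lk1 (mul_mem hN hN)), ← hn] at this
      exact this.symm
    have b1 : f * (c * s) = c * s := by
      have := congrArg (F v) hea
      rwa [← hfn, mul_assoc, F_io, F_lk hN, hF] at this
    have b2 : n * r = r := by
      have := congrArg (T v) hea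
      rwa [← hfn, mul_assoc, T_io, T_lk hN, T_io, ← hr] at this
    have b3 : n * b = b := (h n nn).1 (by rw [← hsr, ← mul_assoc, comm_lk hN, mul_assoc, b2])
    have b4 := (H v _ _ c (rt_F h v) f ff).1 (by rw [← hs]; exact b1)
    rw [← hfn, mul_assoc, ← mul_assoc n, comm_lk hN, mul_assoc, b3]
    conv_lhs => rw [← FT v b]
    conv_rhs => rw [← FT v b]
    rw [← mul_assoc (io Γ v c), ← map_mul, ← mul_assoc, ← map_mul, b4, map_mul, mul_assoc]

theorem main (H : ∀ v (a b c : M v), Rt a b → Rt (c * a) (c * b)) (a b c : GP Γ M)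
    (h : Rt a b) : Rt (c * a) (c * b) := by
  obtain ⟨w, -, rfl⟩ := ex_red c
  induction w with
  | nil => simpa using h
  | cons x w ih =>
    rw [mk_cons, mul_assoc, mul_assoc]
    intro e he
    exact ⟨step H ih _ _ e he, step H (fun f hf => (ih f hf).symm) _ _ e he⟩

end Pool.Agent.H.MP_96aaf1_al
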